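import Pool.Agent.Y524L.St

/-!
# Amalgams over a finite group embed in a wreath product of the free product (S_AM1)

Author helper584, for project LA of helper524.
-/

set_option autoImplicit false

open Classical

namespace Pool.Agent.Y584.LA

open Monoid Pool.Agent.Y462.SS Pool.Agent.Y524L

section gen

variable {ι Z K H : Type} {G : ι → Type} [∀ i, Group (G i)] [Group H] [Group K]
  (φ : ∀ i, H →* G i) (ρ : ∀ i, G i →* Equiv.Perm Z) (τ : H →* Equiv.Perm Z)
  (f : Z → H) (κ : ∀ i, G i →* K)

/-- the homomorphism of one factor to the wreath product -/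
def psi (i : ι) : G i →* Wr Z K where
  toFun g := ⟨fun z => κ i ((φ i (f (ρ i g z)))⁻¹ * g * φ i (f z)), ρ i g⟩
  map_one' := by
    ext z
    · simp
    · simp
  map_mul' := by
    intro a b
    ext z
    · simp only [map_mul, Wr.mul_s, Equiv.Perm.mul_apply, map_inv]
      group
    · simp

theorem psi_s (i : ι) (g : G i) (z : Z) :
    (psi φ ρ f κ i g).s z = κ i ((φ i (f (ρ i g z)))⁻¹ * g * φ i (f z)) := rfl

theorem psi_p (i : ι) (g : G i) : (psi φ ρ f κ i g).p = ρ i g := rfl

variable (hρ : ∀ i h, ρ i (φ i h) = τ h) (hf : ∀ h z, f (τ h z) = h * f z)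

/-- the homomorphism of the base group -/
def psb : H →* Wr Z K where
  toFun h := ⟨fun _ => 1, τ h⟩
  map_one' := by
    ext z
    · rfl
    · simp
  map_mul' := by
    intro a b
    ext z
    · simp
    · simp

include hρ hf in
theorem psi_comp (i : ι) : (psi φ ρ f κ i).comp (φ i) = psb (K := K) τ := by
  ext h z
  · change κ i ((φ i (f (ρ i (φ i h) z)))⁻¹ * φ i h * φ i (f z)) = 1
    rw [hρ, hf, map_mul (φ i)]
    have : (φ i h * φ i (f z))⁻¹ * φ i h * φ i (f z) = 1 := by group
    rw [this, map_one]
  · change ρ i (φ i h) _ = τ h _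
    rw [hρ]

/-- the homomorphism of the amalgam -/
def Psi : PushoutI φ →* Wr Z K :=
  PushoutI.lift (psi φ ρ f κ) (psb τ) (fun i => psi_comp φ ρ τ f κ hρ hf i)

/-- value of a list of letters -/
def ev (l : List (Σ i, G i)) : Wr Z K := (l.map fun x => psi φ ρ f κ x.1 x.2).prod

/-- the list of the sections -/
def D (z : Z) : List (Σ i, G i) → List (Σ i, G i)
  | [] => []
  | x :: l => ⟨x.1, (φ x.1 (f (ρ x.1 x.2 ((ev φ ρ f κ l).p z))))⁻¹ * x.2 *
      φ x.1 (f ((ev φ ρ f κ l).p z))⟩ :: D z l

theorem D_fst (z : Z) (l : List (Σ i, G i)) :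
    (D φ ρ f κ z l).map Sigma.fst = l.map Sigma.fst := by
  induction l with
  | nil => rfl
  | cons x l ih => simp only [D, List.map_cons, ih]

theorem D_s (z : Z) (l : List (Σ i, G i)) :
    (ev φ ρ f κ l).s z = ((D φ ρ f κ z l).map fun x => κ x.1 x.2).prod := by
  induction l with
  | nil => rfl
  | cons x l ih =>
    have h1 : ev φ ρ f κ (x :: l) = psi φ ρ f κ x.1 x.2 * ev φ ρ f κ l := by
      simp only [ev, List.map_cons, List.prod_cons]
    rw [h1, Wr.mul_s, ih, psi_s]
    simp only [D, List.map_cons, List.prod_cons]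

theorem D_ne (z : Z) (l : List (Σ i, G i)) (hl : ∀ x ∈ l, x.2 ∉ (φ x.1).range) :
    ∀ x ∈ D φ ρ f κ z l, x.2 ≠ 1 := by
  induction l with
  | nil => intro x hx; simp [D] at hx
  | cons y l ih =>
    intro x hx
    rw [D, List.mem_cons] at hx
    rcases hx with rfl | hx
    · intro h
      apply hl y List.mem_cons_self
      have h2 : y.2 = φ y.1 (f (ρ y.1 y.2 ((ev φ ρ f κ l).p z))) *
          (φ y.1 (f ((ev φ ρ f κ l).p z)))⁻¹ := by
        have h3 : (φ y.1 (f (ρ y.1 y.2 ((ev φ ρ f κ l).p z))))⁻¹ * y.2 *
          φ y.1 (f ((ev φ ρ f κ l).p z)) = 1 := h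
        rw [mul_eq_one_iff_eq_inv, inv_mul_eq_iff_eq_mul] at h3
        exact h3
      rw [h2]
      exact mul_mem ⟨_, rfl⟩ (inv_mem ⟨_, rfl⟩)
    · exact ih (fun x hx => hl x (List.mem_cons_of_mem _ hx)) x hx

theorem Psi_word (w : CoprodI.Word G) :
    Psi φ ρ τ f κ hρ hf (PushoutI.ofCoprodI w.prod) = ev φ ρ f κ w.toList := by
  rw [CoprodI.Word.prod, map_list_prod, map_list_prod, ev, List.map_map, List.map_map]
  congr 1

theorem word_eq (θ : K →* CoprodI G) (hθ : ∀ i (g : G i), θ (κ i g) = CoprodI.of g)
    (w : CoprodI.Word G) (hw : ∀ x ∈ w.toList, x.2 ∉ (φ x.1).range) (z : Z)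
    (h : (ev φ ρ f κ w.toList).s z = 1) : w.toList = [] := by
  let w' : CoprodI.Word G := ⟨D φ ρ f κ z w.toList, D_ne φ ρ f κ z _ hw, by
    have h1 := w.chain_ne
    have h2 : List.IsChain (fun a b : ι => a ≠ b) (w.toList.map Sigma.fst) := by
      rw [List.isChain_map]; exact h1
    rw [← D_fst φ ρ f κ z, List.isChain_map] at h2
    exact h2⟩
  have h3 : w'.prod = 1 := by
    have h4 : w'.prod = θ ((ev φ ρ f κ w.toList).s z) := by
      rw [D_s, map_list_prod, List.map_map, CoprodI.Word.prod]
      congr 1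
      apply List.map_congr_left
      intro x _
      simp only [Function.comp, hθ]
    rw [h4, h, map_one]
  have h5 : w' = CoprodI.Word.empty := by
    have h6 : (CoprodI.Word.equiv (M := G)).symm w' =
        (CoprodI.Word.equiv (M := G)).symm CoprodI.Word.empty := by
      change w'.prod = CoprodI.Word.empty.prod
      rw [h3, CoprodI.Word.prod_empty]
    exact (CoprodI.Word.equiv (M := G)).symm.injective h6
  have h7 : D φ ρ f κ z w.toList = [] := by
    have h8 : w'.toList = [] := by rw [h5]; rfl
    exact h8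
  have h9 := D_fst φ ρ f κ z w.toList
  rw [h7] at h9
  exact List.map_eq_nil_iff.mp h9.symm

theorem Psi_injective [Nonempty Z] (hφ : ∀ i, Function.Injective (φ i))
    (hτ : Function.Injective τ)
    (θ : K →* CoprodI G) (hθ : ∀ i (g : G i), θ (κ i g) = CoprodI.of g) :
    Function.Injective (Psi φ ρ τ f κ hρ hf) := by
  rw [injective_iff_map_eq_one]
  intro x hx
  obtain ⟨d⟩ := PushoutI.NormalWord.transversal_nonempty φ hφ
  obtain ⟨w, rfl⟩ : ∃ w : PushoutI.NormalWord d, w.prod = x :=
    ⟨PushoutI.NormalWord.equiv x, PushoutI.NormalWord.equiv.symm_apply_apply x⟩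
  rw [PushoutI.NormalWord.prod, map_mul, Psi_word] at hx
  have hb : Psi φ ρ τ f κ hρ hf (PushoutI.base φ w.head) = psb τ w.head := by
    rw [Psi, PushoutI.lift_base]
  rw [hb] at hx
  obtain ⟨z⟩ := ‹Nonempty Z›
  have hw : w.toList = [] := by
    apply word_eq φ ρ f κ θ hθ w.toWord _ z
    · have h1 := congrArg (fun a => Wr.s a z) hx
      simp only [Wr.mul_s, Wr.one_s] at h1
      change 1 * _ = 1 at h1
      rwa [one_mul] at h1
    · rintro ⟨i, g⟩ hg hgr
      have h1 := w.normalized i g hg
      have h2 := w.ne_one ⟨i, g⟩ hg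
      apply h2
      have h3 := (Subgroup.IsComplement.coe_equiv_snd_eq_one_iff_mem (d.compl i) (d.one_mem i)
        (g := g)).2 hgr
      have h4 := (Subgroup.IsComplement.equiv_snd_eq_self_iff_mem (d.compl i)
        (one_mem _) (g := g)).2 h1
      exact h4.symm.trans h3
  rw [PushoutI.NormalWord.prod]
  have h1 : w.toWord.prod = 1 := by
    rw [CoprodI.Word.prod, hw]; rfl
  rw [hw] at hx
  have h2 : ev φ ρ f κ [] = (1 : Wr Z K) := rfl
  rw [h2, mul_one] at hx
  have h3 : τ w.head = 1 := congrArg Wr.p hx
  have h4 : w.head = 1 := hτ (by rw [h3, map_one])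
  rw [h1, h4, map_one, map_one, mul_one]

end gen

/-! ## the equivariant map -/

theorem exists_equi {Y H : Type} [Group H] (τ : H →* Equiv.Perm Y)
    (hτ : Function.Injective τ) :
    ∃ f : Equiv.Perm Y → H, ∀ h z, f (τ h * z) = h * f z := by
  let s : Setoid (Equiv.Perm Y) :=
    { r := fun a b => ∃ h, b = τ h * a
      iseqv := by
        refine ⟨fun a => ⟨1, by rw [map_one, one_mul]⟩, ?_, ?_⟩
        · rintro a b ⟨h, rfl⟩
          exact ⟨h⁻¹, by rw [map_inv, inv_mul_cancel_left]⟩
        · rintro a b c ⟨h, rfl⟩ ⟨k, rfl⟩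
          exact ⟨k * h, by rw [map_mul, mul_assoc]⟩ }
  have key : ∀ z : Equiv.Perm Y, ∃ h, z = τ h * (Quotient.out (Quotient.mk s z)) := by
    intro z
    have h1 : s.r (Quotient.out (Quotient.mk s z)) z := Quotient.exact (Quotient.out_eq _)
    exact h1
  choose f hf using key
  refine ⟨f, fun h z => ?_⟩
  have h0 : s.r z (τ h * z) := ⟨h, rfl⟩
  have h1 : Quotient.mk s (τ h * z) = Quotient.mk s z := (Quotient.sound h0).symm
  have h2 := hf (τ h * z)
  rw [h1] at h2
  have h3 := hf z
  apply hτ
  rw [map_mul]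
  apply mul_right_cancel (b := Quotient.out (Quotient.mk s z))
  rw [← h2, mul_assoc, ← h3]

/-! ## the theorem -/

section two

variable (A P : Type) [Group A] [Group P]

/-- the two groups as a family -/
def MM : Bool → Type := fun b => match b with
  | true => A
  | false => P

instance : ∀ b, Group (MM A P b) := fun b => match b with
  | true => (inferInstance : Group A)
  | false => (inferInstance : Group P)

variable {A P} {Q : Type} [Group Q] (i : Q →* A) (j : Q →* P)

/-- the two embeddings -/
def ph : ∀ b, Q →* MM A P b := fun b => match b with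
  | true => i
  | false => j

/-- the first factor -/
def ofT : A →* PushoutI (ph i j) := (PushoutI.of (φ := ph i j) true : MM A P true →* _)

/-- the second factor -/
def ofF : P →* PushoutI (ph i j) := (PushoutI.of (φ := ph i j) false : MM A P false →* _)

/-- the map of the free product to the amalgam -/
def cp : Coprod A P →* PushoutI (ph i j) :=
  Coprod.lift (ofT i j) (ofF i j)

theorem cp_inl (a : A) : cp i j (Coprod.inl a) = ofT i j a := Coprod.lift_apply_inl _ _ _

theorem cp_inr (a : P) : cp i j (Coprod.inr a) = ofF i j a := Coprod.lift_apply_inr _ _ _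

theorem cp_ker : (cp i j).ker = Subgroup.normalClosure
        {r | ∃ q : Q, r = Monoid.Coprod.inl (i q) * (Monoid.Coprod.inr (j q))⁻¹} := by
  apply le_antisymm
  · intro w hw
    let N : Subgroup (Coprod A P) := Subgroup.normalClosure
        {r | ∃ q : Q, r = Monoid.Coprod.inl (i q) * (Monoid.Coprod.inr (j q))⁻¹}
    have hN : N.Normal := Subgroup.normalClosure_normal
    let m : Coprod A P →* Coprod A P ⧸ N := QuotientGroup.mk' N
    have hq : ∀ q, m (Coprod.inl (i q)) = m (Coprod.inr (j q)) := by
      intro q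
      have h1 : m (Coprod.inl (i q) * (Coprod.inr (j q))⁻¹) = 1 :=
        (QuotientGroup.eq_one_iff _).2 (Subgroup.subset_normalClosure ⟨q, rfl⟩)
      rw [map_mul, map_inv, mul_inv_eq_one] at h1
      exact h1
    let fam : ∀ b, MM A P b →* Coprod A P ⧸ N := fun b => match b with
      | true => m.comp Coprod.inl
      | false => m.comp Coprod.inr
    have hfam : ∀ b, (fam b).comp (ph i j b) = (m.comp Coprod.inl).comp i := by
      intro b
      match b with
      | true => rfl
      | false =>
        ext q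
        exact (hq q).symm
    let L : PushoutI (ph i j) →* Coprod A P ⧸ N := PushoutI.lift fam _ hfam
    have hL : L.comp (cp i j) = m := by
      apply Coprod.hom_ext
      · ext a
        change L (cp i j (Coprod.inl a)) = m (Coprod.inl a)
        rw [cp_inl]
        exact PushoutI.lift_of fam _ hfam (i := true) a
      · ext a
        change L (cp i j (Coprod.inr a)) = m (Coprod.inr a)
        rw [cp_inr]
        exact PushoutI.lift_of fam _ hfam (i := false) a
    have h2 : m w = 1 := by
      rw [← hL, MonoidHom.comp_apply, (MonoidHom.mem_ker).1 hw, map_one]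
    exact (QuotientGroup.eq_one_iff _).1 h2
  · apply Subgroup.normalClosure_le_normal
    rintro _ ⟨q, rfl⟩
    rw [SetLike.mem_coe, MonoidHom.mem_ker, map_mul, map_inv, mul_inv_eq_one, cp_inl, cp_inr]
    exact (PushoutI.of_apply_eq_base (ph i j) true q).trans
      (PushoutI.of_apply_eq_base (ph i j) false q).symm

end two

/-- **amalgams over a finite group embed in a wreath product of the free product** -/
theorem t_am1 : S_AM1 := by
  intro A P Q _ _ _ i j _ hi hj Y hY α π hαπ hα
  have hτ : Function.Injective (α.comp i) := by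
    rw [injective_iff_map_eq_one]
    exact hα
  obtain ⟨f, hf⟩ := exists_equi (α.comp i) hτ
  -- left multiplication
  let lm : Equiv.Perm Y →* Equiv.Perm (Equiv.Perm Y) := MulAction.toPermHom _ _
  have hlm : Function.Injective lm := MulAction.toPerm_injective
  let ρ : ∀ b, MM A P b →* Equiv.Perm (Equiv.Perm Y) := fun b => match b with
    | true => lm.comp α
    | false => lm.comp π
  let τ : Q →* Equiv.Perm (Equiv.Perm Y) := lm.comp (α.comp i)
  have hρ : ∀ b h, ρ b (ph i j b h) = τ h := by
    intro b h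
    match b with
    | true => rfl
    | false => exact congrArg lm (hαπ h).symm
  have hf' : ∀ h z, f (τ h z) = h * f z := hf
  let κ : ∀ b, MM A P b →* Coprod A P := fun b => match b with
    | true => Coprod.inl
    | false => Coprod.inr
  let θ : Coprod A P →* CoprodI (MM A P) :=
    Coprod.lift (CoprodI.of (M := MM A P) (i := true) : A →* _)
      (CoprodI.of (M := MM A P) (i := false) : P →* _)
  have hθ : ∀ b (g : MM A P b), θ (κ b g) = CoprodI.of g := by
    intro b g
    match b with
    | true => exact Coprod.lift_apply_inl _ _ _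
    | false => exact Coprod.lift_apply_inr _ _ _
  have hφ : ∀ b, Function.Injective (ph i j b) := by
    intro b
    match b with
    | true => exact hi
    | false => exact hj
  have hinj := Psi_injective (ph i j) ρ τ f κ hρ hf' hφ (hlm.comp hτ) θ hθ
  refine ⟨Equiv.Perm Y, inferInstance, (Psi (ph i j) ρ τ f κ hρ hf').comp (cp i j), ?_⟩
  rw [← cp_ker i j]
  ext w
  rw [MonoidHom.mem_ker, MonoidHom.mem_ker, MonoidHom.comp_apply]
  exact ⟨fun h => hinj (h.trans (map_one _).symm), fun h => by rw [h, map_one]⟩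

end Pool.Agent.Y584.LA
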